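import Pool.Agent.Work.MP_440970_an.FC.Defs

/-!
# The operators `LM`, `LY` for functions `N ^ s * P`
-/

open Set Filter Topology
open scoped ContDiff

namespace Pool.Agent.Work.MP_440970_an.SC

open FC

variable {N P : J8 → ℝ} {s : ℝ} {z : J8}

theorem pz_mul_rpow (hN : DifferentiableAt ℝ N z) (hP : DifferentiableAt ℝ P z) (h : 0 < N z)
    (k : Fin 8) :
    pz k (fun y => N y ^ s * P y) z
      = N z ^ (s - 1) * (s * P z * pz k N z + N z * pz k P z) := by
  have h1 : HasFDerivAt (fun y => N y ^ s * P y) _ z :=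
    (hN.hasFDerivAt.rpow_const (p := s) (Or.inl h.ne')).mul hP.hasFDerivAt
  have h2 : N z ^ s = N z ^ (s - 1) * N z := by
    rw [← Real.rpow_add_one h.ne', sub_add_cancel]
  unfold pz
  rw [HasFDerivAt.fderiv h1]
  simp only [add_apply, smul_apply, smul_eq_mul]
  rw [h2]
  ring

theorem diff_pz {n : ℕ} (hP : ContDiff ℝ (n + 1) P) (k : Fin 8) : ContDiff ℝ n (pz k P) := by
  unfold pz
  exact (hP.fderiv_right (m := n) le_rfl).clm_apply contDiff_const

theorem pz_pz_mul_rpow (hN : ContDiff ℝ 2 N) (hP : ContDiff ℝ 2 P)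
    (pos : ∀ y, y ≠ 0 → 0 < N y) (hz : z ≠ 0) (k l : Fin 8) :
    pz k (pz l fun y => N y ^ s * P y) z
      = N z ^ (s - 2) * (s * (s - 1) * P z * pz k N z * pz l N z
        + s * N z * (pz k N z * pz l P z + pz k P z * pz l N z + P z * pz k (pz l N) z)
        + N z ^ 2 * pz k (pz l P) z) := by
  have dN : Differentiable ℝ N := hN.differentiable (by norm_num)
  have dP : Differentiable ℝ P := hP.differentiable (by norm_num)
  have dNl : Differentiable ℝ (pz l N) :=
    (diff_pz (n := 1) (by exact_mod_cast hN) l).differentiable (by norm_num)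
  have dPl : Differentiable ℝ (pz l P) :=
    (diff_pz (n := 1) (by exact_mod_cast hP) l).differentiable (by norm_num)
  have ev : (pz l fun y => N y ^ s * P y) =ᶠ[𝓝 z]
      fun y => N y ^ (s - 1) * (s * P y * pz l N y + N y * pz l P y) := by
    filter_upwards [isOpen_ne.mem_nhds hz] with y hy
    exact pz_mul_rpow (dN y) (dP y) (pos y hy) l
  have e1 : pz k (pz l fun y => N y ^ s * P y) z
      = pz k (fun y => N y ^ (s - 1) * (s * P y * pz l N y + N y * pz l P y)) z :=
    congrArg (fun f : J8 →L[ℝ] ℝ => f (Pi.single k 1)) ev.fderiv_eq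
  have hQ : HasFDerivAt (fun y => s * P y * pz l N y + N y * pz l P y)
      ((s * P z) • fderiv ℝ (pz l N) z + (pz l N z) • (s • fderiv ℝ P z)
        + (N z • fderiv ℝ (pz l P) z + pz l P z • fderiv ℝ N z)) z :=
    (((dP z).hasFDerivAt.const_mul s).mul (dNl z).hasFDerivAt).add
      ((dN z).hasFDerivAt.mul (dPl z).hasFDerivAt)
  have e2 : pz k (fun y => s * P y * pz l N y + N y * pz l P y) z
      = s * P z * pz k (pz l N) z + pz l N z * (s * pz k P z)
        + (N z * pz k (pz l P) z + pz l P z * pz k N z) :=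
    congrArg (fun f : J8 →L[ℝ] ℝ => f (Pi.single k 1)) hQ.fderiv
  have hp := pos z hz
  have h2 : N z ^ (s - 1) = N z ^ (s - 2) * N z := by
    rw [← Real.rpow_add_one hp.ne']; congr 1; ring
  rw [e1, pz_mul_rpow (s := s - 1) (dN z) hQ.differentiableAt hp k, e2,
    show s - 1 - 1 = s - 2 by ring]
  ring

/-- directional derivatives -/
noncomputable def DR (f : J8 → ℝ) (z : J8) (w : Fin 7 → ℝ) (i : Fin 3) : ℝ :=
  ∑ k, pz k f z * Am z w i k

theorem sum_prod (a b : Fin 8 → ℝ) (A : Fin 3 → Fin 8 → ℝ) :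
    ∑ k, ∑ l, (a k * b l) * (∑ i, A i k * A i l)
      = ∑ i, (∑ k, a k * A i k) * (∑ k, b k * A i k) := by
  have e : ∀ i, (∑ k, a k * A i k) * (∑ l, b l * A i l)
      = ∑ k, ∑ l, (a k * b l) * (A i k * A i l) := by
    intro i
    rw [Finset.sum_mul_sum]
    exact Finset.sum_congr rfl fun k _ => Finset.sum_congr rfl fun l _ => by ring
  simp_rw [e, Finset.mul_sum]
  rw [Finset.sum_comm]
  rw [Finset.sum_congr rfl fun l _ => Finset.sum_comm]
  rw [Finset.sum_comm]
  exact Finset.sum_congr rfl fun i _ => by rw [Finset.sum_comm]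

/-- the operator `LM` on `N ^ s * P` -/
theorem LM_formula (hN : ContDiff ℝ 2 N) (hP : ContDiff ℝ 2 P)
    (pos : ∀ y, y ≠ 0 → 0 < N y) (hz : z ≠ 0) (w : Fin 7 → ℝ) :
    LM (fun y => N y ^ s * P y) z w
      = N z ^ (s - 2) * (s * (s - 1) * P z * (∑ i, DR N z w i ^ 2)
          + 2 * s * N z * (∑ i, DR N z w i * DR P z w i)
          + s * N z * P z * LM N z w + N z ^ 2 * LM P z w) := by
  have dN : Differentiable ℝ N := hN.differentiable (by norm_num)
  have dP : Differentiable ℝ P := hP.differentiable (by norm_num)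
  have hp := pos z hz
  have h2 : N z ^ (s - 1) = N z ^ (s - 2) * N z := by
    rw [← Real.rpow_add_one hp.ne']; congr 1; ring
  have a1 : ∑ i, DR N z w i ^ 2
      = ∑ k, ∑ l, (pz k N z * pz l N z) * (∑ i, Am z w i k * Am z w i l) := by
    rw [sum_prod]; exact Finset.sum_congr rfl fun i _ => sq _
  have a2 : ∑ i, DR N z w i * DR P z w i
      = ∑ k, ∑ l, (pz k N z * pz l P z) * (∑ i, Am z w i k * Am z w i l) := by
    rw [sum_prod]; rfl
  have a3 : ∑ i, DR N z w i * DR P z w i
      = ∑ k, ∑ l, (pz k P z * pz l N z) * (∑ i, Am z w i k * Am z w i l) := by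
    rw [sum_prod]; exact Finset.sum_congr rfl fun i _ => mul_comm _ _
  have a4 : 2 * s * N z * (∑ i, DR N z w i * DR P z w i)
      = s * N z * (∑ k, ∑ l, (pz k N z * pz l P z) * (∑ i, Am z w i k * Am z w i l))
        + s * N z * (∑ k, ∑ l, (pz k P z * pz l N z) * (∑ i, Am z w i k * Am z w i l)) := by
    rw [← a2, ← a3]; ring
  rw [a1, a4]
  unfold LM
  simp_rw [pz_pz_mul_rpow (s := s) hN hP pos hz, pz_mul_rpow (s := s) (dN z) (dP z) hp, h2]
  have b1 : ∑ k, ∑ l, N z ^ (s - 2) * (s * (s - 1) * P z * pz k N z * pz l N z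
        + s * N z * (pz k N z * pz l P z + pz k P z * pz l N z + P z * pz k (pz l N) z)
        + N z ^ 2 * pz k (pz l P) z) * (∑ i, Am z w i k * Am z w i l)
      = N z ^ (s - 2) * (s * (s - 1) * P z
          * (∑ k, ∑ l, (pz k N z * pz l N z) * (∑ i, Am z w i k * Am z w i l))
        + s * N z * (∑ k, ∑ l, (pz k N z * pz l P z) * (∑ i, Am z w i k * Am z w i l))
        + s * N z * (∑ k, ∑ l, (pz k P z * pz l N z) * (∑ i, Am z w i k * Am z w i l))
        + s * N z * P z * (∑ k, ∑ l, pz k (pz l N) z * (∑ i, Am z w i k * Am z w i l))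
        + N z ^ 2 * (∑ k, ∑ l, pz k (pz l P) z * (∑ i, Am z w i k * Am z w i l))) := by
    have key : ∀ (a b b' g h W : Fin 8 → Fin 8 → ℝ) (c α β γ δ : ℝ),
        ∑ k, ∑ l, c * (α * a k l + β * (b k l + b' k l + γ * g k l) + δ * h k l) * W k l
        = c * (α * (∑ k, ∑ l, a k l * W k l) + β * (∑ k, ∑ l, b k l * W k l)
          + β * (∑ k, ∑ l, b' k l * W k l) + β * γ * (∑ k, ∑ l, g k l * W k l)
          + δ * (∑ k, ∑ l, h k l * W k l)) := by
      intro a b b' g h W c α β γ δ
      simp only [Finset.mul_sum, ← Finset.sum_add_distrib]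
      exact Finset.sum_congr rfl fun k _ => Finset.sum_congr rfl fun l _ => by ring
    rw [← key]
    exact Finset.sum_congr rfl fun k _ => Finset.sum_congr rfl fun l _ => by ring
  rw [b1]
  have b2 : ∑ k, N z ^ (s - 2) * N z * (s * P z * pz k N z + N z * pz k P z) * Bm w k
      = N z ^ (s - 2) * (s * N z * P z * (∑ k, pz k N z * Bm w k)
        + N z ^ 2 * (∑ k, pz k P z * Bm w k)) := by
    simp only [Finset.mul_sum, ← Finset.sum_add_distrib]
    exact Finset.sum_congr rfl fun k _ => by ring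
  rw [b2]
  ring

/-- the operator `LY` on `N ^ (s - 1) * R` -/
theorem LY_formula {R : Fin 3 → J8 → ℝ} (hN : ContDiff ℝ 2 N) (hR : ∀ i, ContDiff ℝ 1 (R i))
    (pos : ∀ y, y ≠ 0 → 0 < N y) (hz : z ≠ 0) (w : Fin 7 → ℝ) :
    LY (fun i y => N y ^ (s - 1) * R i y) z w
      = N z ^ (s - 2) * ((s - 1) * (∑ i, R i z * DR N z w i)
          + N z * ∑ i, DR (R i) z w i) := by
  have dN : Differentiable ℝ N := hN.differentiable (by norm_num)
  have hp := pos z hz
  have e : ∀ i, ∑ k, pz k (fun y => N y ^ (s - 1) * R i y) z * Am z w i k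
      = N z ^ (s - 2) * ((s - 1) * (R i z * DR N z w i) + N z * DR (R i) z w i) := by
    intro i
    have dR : Differentiable ℝ (R i) := (hR i).differentiable (by norm_num)
    simp_rw [pz_mul_rpow (s := s - 1) (dN z) (dR z) hp, show s - 1 - 1 = s - 2 by ring]
    unfold DR
    simp only [Finset.mul_sum, ← Finset.sum_add_distrib]
    exact Finset.sum_congr rfl fun k _ => by ring
  unfold LY
  simp_rw [e]
  simp only [Finset.mul_sum, ← Finset.sum_add_distrib]

end Pool.Agent.Work.MP_440970_an.SC
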